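import Pool.Agent.K1H27.TP.Stm

/-!
Piece LIN2R of the project TP.
-/

set_option autoImplicit false

namespace Pool.Agent.K1H67.TP

open MeasureTheory
open Pool.Agent.K1H27.TP

theorem t_LIN2R (h2 : S_LIN2) : S_LIN2R := by
  intro u v z ψ K huv hvz hψ hψ1 hK h3 h4
  have hint : ∀ (f : ℝ → ℝ) (a b : ℝ), ∫ x in a..b, f (u + z - x) =
      ∫ x in (u + z - b)..(u + z - a), f x := fun f a b =>
    intervalIntegral.integral_comp_sub_left f (u + z)
  have e1 : u + z - z = u := by ring
  have e2 : u + z - u = z := by ring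
  have e3 : u + z - (u + z - v) = v := by ring
  have hI : ∀ t : ℝ, ∫ x in u..t, ψ (u + z - x) = ∫ x in (u + z - t)..z, ψ x := by
    intro t
    rw [hint, e2]
  have key := h2 u (u + z - v) z (fun x => ψ (u + z - x)) (fun t => K (u + z - t))
    (by linarith) (by linarith) (hψ.comp (measurable_const.sub measurable_id))
    (fun x => hψ1 _) ?_ ?_ ?_
  · have l1 : ∫ t in u..z, |(∫ x in u..t, ψ (u + z - x)) - K (u + z - t)| =
        ∫ t in u..z, |(∫ x in t..z, ψ x) - K t| := by
      simp only [hI]
      rw [hint (fun t => |(∫ x in t..z, ψ x) - K t|) u z, e1, e2]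
    have l2 : ∫ t in u..z, K (u + z - t) = ∫ t in u..z, K t := by
      rw [hint K u z, e1, e2]
    have l3 : pm (fun x => ψ (u + z - x)) u z = pm ψ u z := by
      unfold pm
      rw [hint (fun x => max (ψ x) 0) u z, e1, e2]
    have l4 : nm (fun x => ψ (u + z - x)) u z = nm ψ u z := by
      unfold nm
      rw [hint (fun x => max (-ψ x) 0) u z, e1, e2]
    have l5 : U (fun x => ψ (u + z - x)) u z = U ψ u z := by
      unfold U
      rw [l3, l4]
    rw [l5] at key
    rw [l1, l2] at key
    exact key
  · refine hK.comp (by fun_prop) ?_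
    intro t ht
    simp only [Set.mem_Icc] at ht ⊢
    constructor <;> linarith [ht.1, ht.2]
  · intro t ht
    simp only [hI, e3]
    have := h3 (u + z - t) ⟨by linarith [ht.2], by linarith [ht.1]⟩
    have e4 : u + z - v - u = z - v := by ring
    have e5 : z - (u + z - t) = t - u := by ring
    rw [e4]
    rw [e5] at this
    exact this
  · intro t ht
    simp only [hI]
    exact h4 (u + z - t) ⟨by linarith [ht.2], by linarith [ht.1]⟩

end Pool.Agent.K1H67.TP
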